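import Pool.Agent.W580.SH.StmA

/-!
Project SH: no two independent four-circuits.
-/

set_option autoImplicit false

namespace Pool.Agent.W922.SH

open Finset Pool.Agent.W580.SH

/-- one exchange step -/
theorem step (hC : S_CRAM) {R : Type} (D : Set (R → ℝ)) (κ : Fin 6 → R) (x : Fin 6 → (R → ℝ))
    (hx : ∀ j, x j ∈ D) (G : Finset (Fin 6)) (hy : -(∑ j ∈ G, x j) ∈ D) (β : Fin 6 → ℤ)
    (hG : (∀ j ∈ G, Odd (β j)) ∨ ∃ m ∈ G, Odd (β m) ∧ ∀ j ∈ G, j ≠ m → Even (β j)) :
    ∃ (p : Fin 6 → (R → ℝ)) (β' : Fin 6 → ℤ), (∀ j, p j ∈ D) ∧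
      (∀ j, j ∉ G → p j = x j ∧ β' j = β j) ∧
      (∀ j ∈ G, Odd (β' j)) ∧ (∑ j, (β' j : ℝ) • p j = ∑ j, (β j : ℝ) • x j) ∧
      |mn κ p| = |mn κ x| := by
  rcases hG with hG | ⟨m, hm, hmo, hme⟩
  · exact ⟨x, β, hx, fun _ _ => ⟨rfl, rfl⟩, hG, rfl, rfl⟩
  · refine ⟨Function.update x m (-(∑ j ∈ G, x j)),
      fun j => if j = m then -β m else if j ∈ G then β j - β m else β j, ?_, ?_, ?_, ?_, ?_⟩
    · intro j
      by_cases h : j = m
      · subst h; rw [Function.update_self]; exact hy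
      · rw [Function.update_of_ne h]; exact hx j
    · intro j hj
      have h : j ≠ m := fun e => hj (e ▸ hm)
      exact ⟨Function.update_of_ne h _ _, by simp [h, hj]⟩
    · intro j hj
      by_cases h : j = m
      · simp only [h, if_true]; exact hmo.neg
      · simp only [h, hj, if_true, if_false]; exact (hme j hj h).sub_odd hmo
    · have h1 : ∀ j, ((if j = m then -β m else if j ∈ G then β j - β m else β j : ℤ) : ℝ) •
          Function.update x m (-(∑ j ∈ G, x j)) j
          = (β j : ℝ) • x j - (if j ∈ G then (β m : ℝ) • x j else 0)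
            + (if j = m then (β m : ℝ) • ∑ j ∈ G, x j else 0) := by
        intro j
        by_cases h : j = m
        · subst h
          rw [Function.update_self, if_pos rfl, if_pos hm, if_pos rfl, sub_self, zero_add]
          push_cast
          rw [neg_smul, smul_neg, neg_neg]
        · rw [Function.update_of_ne h, if_neg h, if_neg h, add_zero]
          by_cases hj : j ∈ G
          · rw [if_pos hj, if_pos hj]
            push_cast
            rw [sub_smul]
          · rw [if_neg hj, if_neg hj, sub_zero]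
      rw [Finset.sum_congr rfl (fun j _ => h1 j), Finset.sum_add_distrib, Finset.sum_sub_distrib,
        Finset.sum_ite_eq' univ m, if_pos (Finset.mem_univ m), ← Finset.sum_filter,
        Finset.filter_mem_eq_inter, Finset.univ_inter, ← Finset.smul_sum, sub_add_cancel]
    · have h1 := hC.1 R 6 κ x (-(∑ j ∈ G, x j)) (fun i => if i ∈ G then -1 else 0) m (by
        intro a
        simp only [ite_mul, zero_mul, neg_one_mul, Pi.neg_apply, Finset.sum_apply]
        rw [← Finset.sum_filter, Finset.filter_mem_eq_inter, Finset.univ_inter,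
          Finset.sum_neg_distrib])
      rw [h1, if_pos hm, neg_one_mul, abs_neg]

theorem three (a b c : ℤ) (h : Odd (a + b + c)) :
    (Odd a ∧ Odd b ∧ Odd c) ∨ (Odd a ∧ Even b ∧ Even c) ∨ (Even a ∧ Odd b ∧ Even c) ∨
      (Even a ∧ Even b ∧ Odd c) := by
  simp only [Int.odd_iff, Int.even_iff] at *
  omega

theorem three' (β : Fin 6 → ℤ) (i j k : Fin 6) (hij : i ≠ j) (hik : i ≠ k) (hjk : j ≠ k)
    (h : Odd (β i + β j + β k)) :
    (∀ l ∈ ({i, j, k} : Finset (Fin 6)), Odd (β l)) ∨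
      ∃ m ∈ ({i, j, k} : Finset (Fin 6)), Odd (β m) ∧
        ∀ l ∈ ({i, j, k} : Finset (Fin 6)), l ≠ m → Even (β l) := by
  have hmem : ∀ l, l ∈ ({i, j, k} : Finset (Fin 6)) ↔ l = i ∨ l = j ∨ l = k := by
    intro l; simp
  rcases three _ _ _ h with ⟨h1, h2, h3⟩ | ⟨h1, h2, h3⟩ | ⟨h1, h2, h3⟩ | ⟨h1, h2, h3⟩
  · left
    intro l hl
    rcases (hmem l).1 hl with rfl | rfl | rfl <;> assumption
  · right
    refine ⟨i, (hmem i).2 (Or.inl rfl), h1, fun l hl hne => ?_⟩
    rcases (hmem l).1 hl with rfl | rfl | rfl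
    · exact absurd rfl hne
    · exact h2
    · exact h3
  · right
    refine ⟨j, (hmem j).2 (Or.inr (Or.inl rfl)), h2, fun l hl hne => ?_⟩
    rcases (hmem l).1 hl with rfl | rfl | rfl
    · exact h1
    · exact absurd rfl hne
    · exact h3
  · right
    refine ⟨k, (hmem k).2 (Or.inr (Or.inr rfl)), h3, fun l hl hne => ?_⟩
    rcases (hmem l).1 hl with rfl | rfl | rfl
    · exact h1
    · exact h2
    · exact absurd rfl hne

theorem odd_abs {n : ℤ} (h : Odd n) : 1 ≤ |(n : ℝ)| := by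
  have h1 : n ≠ 0 := by
    rintro rfl
    exact absurd h (by decide)
  have h2 : (1 : ℤ) ≤ |n| := Int.one_le_abs h1
  exact_mod_cast h2

/-- integral entries give an integral minor -/
theorem mn_int {R : Type} {k : ℕ} (r : Fin k → R) (c : Fin k → (R → ℝ))
    (h : ∀ a b, ∃ n : ℤ, c b (r a) = n) : ∃ n : ℤ, mn r c = n := by
  choose n hn using h
  refine ⟨(Matrix.of n).det, ?_⟩
  unfold mn
  have : (Matrix.of fun a b => c b (r a) : Matrix (Fin k) (Fin k) ℝ)
      = (Matrix.of n).map (Int.cast : ℤ → ℝ) := by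
    ext a b
    simp [hn]
  rw [this]
  have h2 := (Int.castRingHom ℝ).map_det (Matrix.of n)
  rw [RingHom.mapMatrix_apply] at h2
  exact h2.symm

theorem main (hM : S_MINOR) (hC : S_CRAM) (hH : S_HALF) (hS : S_STARB) (hE : S_STARE) : S_SIX := by
  intro R _ _ D t hco hst x hx hy hy' hli
  obtain ⟨κ, hκ⟩ := (hM R 6 x).1 hli
  -- the minor is `1/2`
  have hb : |mn κ x| * (1 + ∑ j, |(![-1, -1, -1, 0, 0, 0] : Fin 6 → ℝ) j|) ≤ 2 := by
    apply hS R D hst 6 κ x (-(x 0 + x 1 + x 2)) _ hx hy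
    intro a
    simp [Fin.sum_univ_succ]
    ring
  have hb' : |mn κ x| ≤ 1 / 2 := by
    simp [Fin.sum_univ_succ] at hb
    linarith
  obtain ⟨N, hN⟩ := hH R D t hco 6 κ x hx
  have hMx : |mn κ x| = 1 / 2 := by
    have h1 : N ≠ 0 := by
      rintro rfl
      apply hκ
      have : 2 * mn κ x = 0 := by rw [hN]; simp
      linarith
    have h2 : (1 : ℝ) ≤ |(N : ℝ)| := by exact_mod_cast Int.one_le_abs h1
    have h3 : |(N : ℝ)| = 2 * |mn κ x| := by
      rw [← hN, abs_mul, abs_two]
    linarith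
  -- a half integral row
  have hhalf : ∃ a, t (κ a) = 1 / 2 := by
    by_contra hcon
    push Not at hcon
    have h0 : ∀ a, t (κ a) = 0 := fun a => (hco.1 (κ a)).resolve_right (hcon a)
    obtain ⟨n, hn⟩ := mn_int κ x (fun a b => by
      obtain ⟨n, hn⟩ := hco.2 (x b) (hx b) (κ a)
      exact ⟨n, by rw [hn, h0, zero_add]⟩)
    rw [hn] at hMx
    have h1 : ((2 * |n| : ℤ) : ℝ) = ((1 : ℤ) : ℝ) := by
      push_cast
      rw [hMx]; norm_num
    have h2 := Int.cast_injective h1
    omega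
  obtain ⟨a1, ha1⟩ := hhalf
  -- the matrix
  obtain ⟨A, hA⟩ : ∃ A : Matrix (Fin 6) (Fin 6) ℝ, A = Matrix.of fun a b => x b (κ a) := ⟨_, rfl⟩
  have hdet : A.det = mn κ x := by rw [hA]; rfl
  have hu : IsUnit A.det := by
    rw [hdet]
    exact isUnit_iff_ne_zero.2 hκ
  -- integrality of the inverse
  have hint : ∀ j l, ∃ n : ℤ, A⁻¹ j l = n := by
    intro j l
    rw [Matrix.inv_def, Matrix.smul_apply, Matrix.adjugate_fin_succ_eq_det_submatrix,
      smul_eq_mul, Ring.inverse_eq_inv']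
    obtain ⟨n, hn⟩ := hH R D t hco 5 (fun a => κ (l.succAbove a)) (fun b => x (j.succAbove b))
      (fun b => hx _)
    have h1 : (A.submatrix l.succAbove j.succAbove).det
        = mn (fun a => κ (l.succAbove a)) (fun b => x (j.succAbove b)) := by
      rw [hA]; rfl
    rw [h1]
    have h2 : mn (fun a => κ (l.succAbove a)) (fun b => x (j.succAbove b)) = n / 2 := by
      linarith
    rw [h2, hdet]
    have h3 : mn κ x = 1 / 2 ∨ mn κ x = -(1 / 2) := eq_or_eq_neg_of_abs_eq hMx
    rcases h3 with h3 | h3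
    · refine ⟨(-1) ^ ((l : ℕ) + j) * n, ?_⟩
      rw [h3]; push_cast; ring
    · refine ⟨-((-1) ^ ((l : ℕ) + j) * n), ?_⟩
      rw [h3]; push_cast; ring
  choose B hB using hint
  have hAB : ∀ a l, ∑ j, A a j * (B j l : ℝ) = if a = l then 1 else 0 := by
    intro a l
    have h1 : (A * A⁻¹) a l = (1 : Matrix (Fin 6) (Fin 6) ℝ) a l := by
      rw [Matrix.mul_nonsing_inv _ hu]
    rw [Matrix.mul_apply, Matrix.one_apply] at h1
    rw [← h1]
    exact Finset.sum_congr rfl (fun j _ => by rw [hB])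
  have hBA : ∀ i j, ∑ a, (B i a : ℝ) * A a j = if i = j then 1 else 0 := by
    intro i j
    have h1 : (A⁻¹ * A) i j = (1 : Matrix (Fin 6) (Fin 6) ℝ) i j := by
      rw [Matrix.nonsing_inv_mul _ hu]
    rw [Matrix.mul_apply, Matrix.one_apply] at h1
    rw [← h1]
    exact Finset.sum_congr rfl (fun a _ => by rw [hB])
  -- the entries
  have hent : ∀ a b, ∃ n : ℤ, A a b = t (κ a) + n := by
    intro a b
    rw [hA]
    exact hco.2 (x b) (hx b) (κ a)
  choose E hEn using hent
  -- the column sums are even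
  have heven : ∀ l, Even (∑ j, B j l) := by
    intro l
    have h1 := hAB a1 l
    simp only [hEn, ha1, add_mul, Finset.sum_add_distrib, ← Finset.mul_sum] at h1
    have h2 : ((∑ j, B j l : ℤ) : ℝ) = ((2 * ((if a1 = l then 1 else 0) - ∑ j, E a1 j * B j l) : ℤ) : ℝ) := by
      push_cast
      linarith
    have h3 := Int.cast_injective h2
    rw [h3]
    exact even_two_mul _
  -- an odd partial sum
  have hodd : ∃ l, Odd (B 0 l + B 1 l + B 2 l) := by
    by_contra hcon
    push Not at hcon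
    have h1 : ∀ i, ∑ a, B i a * (E a 0 - E a 3) = (if i = 0 then 1 else 0) - (if i = 3 then 1 else 0) := by
      intro i
      have h2 : ((∑ a, B i a * (E a 0 - E a 3) : ℤ) : ℝ)
          = (((if i = 0 then 1 else 0) - (if i = 3 then 1 else 0) : ℤ) : ℝ) := by
        push_cast
        rw [← hBA i 0, ← hBA i 3, ← Finset.sum_sub_distrib]
        refine Finset.sum_congr rfl (fun a _ => ?_)
        rw [hEn, hEn]
        ring
      exact Int.cast_injective h2
    have h2 : ∑ a, (B 0 a + B 1 a + B 2 a) * (E a 0 - E a 3) = 1 := by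
      have := h1 0
      have := h1 1
      have := h1 2
      simp only [add_mul, Finset.sum_add_distrib]
      rw [h1 0, h1 1, h1 2]
      decide
    have h3 : Even (∑ a, (B 0 a + B 1 a + B 2 a) * (E a 0 - E a 3)) := by
      apply Finset.even_sum
      intro a _
      exact (Int.not_odd_iff_even.1 (hcon a)).mul_right _
    rw [h2] at h3
    exact absurd h3 (by decide)
  obtain ⟨l, hl⟩ := hodd
  have hl2 : Odd (B 3 l + B 4 l + B 5 l) := by
    have h1 := heven l
    have h2 : ∑ j, B j l = (B 0 l + B 1 l + B 2 l) + (B 3 l + B 4 l + B 5 l) := by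
      simp [Fin.sum_univ_succ]
      ring
    rw [h2] at h1
    rw [Int.even_add] at h1
    rw [← Int.not_even_iff_odd] at hl ⊢
    exact fun h3 => hl (h1.2 h3)
  -- the exchanges
  have hmem1 : ∀ j : Fin 6, j ∉ ({0, 1, 2} : Finset (Fin 6)) → j ∈ ({3, 4, 5} : Finset (Fin 6)) := by
    decide
  have hmem2 : ∀ j : Fin 6, j ∉ ({3, 4, 5} : Finset (Fin 6)) → j ∈ ({0, 1, 2} : Finset (Fin 6)) := by
    decide
  have s1 : ∑ j ∈ ({0, 1, 2} : Finset (Fin 6)), x j = x 0 + x 1 + x 2 := by
    rw [Finset.sum_insert (by decide), Finset.sum_insert (by decide), Finset.sum_singleton,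
      add_assoc]
  obtain ⟨p1, β1, hp1, hout1, hin1, hsum1, hmn1⟩ := step hC D κ x hx {0, 1, 2}
    (by rw [s1]; exact hy) (fun j => B j l)
    (three' (fun j => B j l) 0 1 2 (by decide) (by decide) (by decide) hl)
  have s2 : ∑ j ∈ ({3, 4, 5} : Finset (Fin 6)), p1 j = x 3 + x 4 + x 5 := by
    rw [Finset.sum_insert (by decide), Finset.sum_insert (by decide), Finset.sum_singleton,
      (hout1 3 (by decide)).1, (hout1 4 (by decide)).1, (hout1 5 (by decide)).1, add_assoc]
  obtain ⟨p2, β2, hp2, hout2, hin2, hsum2, hmn2⟩ := step hC D κ p1 hp1 {3, 4, 5}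
    (by rw [s2]; exact hy') β1
    (three' β1 3 4 5 (by decide) (by decide) (by decide) (by
      rw [(hout1 3 (by decide)).2, (hout1 4 (by decide)).2, (hout1 5 (by decide)).2]
      exact hl2))
  have hall : ∀ j, Odd (β2 j) := by
    intro j
    by_cases hj : j ∈ ({3, 4, 5} : Finset (Fin 6))
    · exact hin2 j hj
    · rw [(hout2 j hj).2]
      exact hin1 j (hmem2 j hj)
  have hfin := hE R D hst 5 κ p2 (fun j => (β2 j : ℝ)) l hp2 (by
    intro a
    rw [← hAB a l]
    have h1 := congrFun (hsum2.trans hsum1) (κ a)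
    simp only [Finset.sum_apply, Pi.smul_apply, smul_eq_mul] at h1
    rw [h1, hA]
    exact Finset.sum_congr rfl (fun j _ => by rw [mul_comm]; rfl))
  have h6 : (6 : ℝ) ≤ ∑ j, |(β2 j : ℝ)| := by
    have h1 : ∑ _j : Fin 6, (1 : ℝ) ≤ ∑ j, |(β2 j : ℝ)| :=
      Finset.sum_le_sum (fun j _ => odd_abs (hall j))
    simpa using h1
  rw [hmn2, hmn1, hMx] at hfin
  linarith

end Pool.Agent.W922.SH
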